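import Mathlib
import Pool.Agent.H33.GrothDefs
import Pool.Agent.H33.GrothEx

/-!
Two Grothendieck spaces whose product is not even weakly Grothendieck.
-/

namespace Pool.Agent.Results.MP_20595b_gt.ProductCounter

open Pool.Agent.H33.GrothDefs

theorem result : ∃ (X Y : Type) (_ : TopologicalSpace X) (_ : TopologicalSpace Y)
    (_ : T35Space X) (_ : T35Space Y), IsGrothendieck X ∧ IsGrothendieck Y ∧
      ¬ IsWeaklyGrothendieck (X × Y) :=
  Pool.Agent.H33.GrothEx.product_example

end Pool.Agent.Results.MP_20595b_gt.ProductCounter
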